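import Mathlib

namespace Pool.Agent.Results.MP_51bcab_lc.Cex

open FreeMonoid

def F (L : Set (FreeMonoid Bool)) : Set (FreeMonoid Bool) := {u | ∃ x y, x * u * y ∈ L}

def a : FreeMonoid Bool := of false
def b : FreeMonoid Bool := of true

def Y : Set (FreeMonoid Bool) :=
  {a * a, a * a * b, a * a * a * b, b * a * a, b * a * a * a, b * a * a * b, b * a * a * a * b}

def X : Set (FreeMonoid Bool) := insert (a * a * a) Y

def st : Fin 5 → Bool → Fin 5
  | 0, false => 0
  | 0, true => 1
  | 1, false => 3
  | 1, true => 2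
  | 2, false => 3
  | 3, false => 0
  | _, _ => 4

def run (s : Fin 5) (w : FreeMonoid Bool) : Fin 5 := w.toList.foldl st s

lemma run_mul (s : Fin 5) (u v : FreeMonoid Bool) : run s (u * v) = run (run s u) v := by
  simp [run]

lemma run_dead (w : FreeMonoid Bool) : run 4 w = 4 := by
  induction w using FreeMonoid.inductionOn' with
  | one => rfl
  | of_mul x w ih => rw [run_mul]; cases x <;> exact ih

lemma run_X (w : FreeMonoid Bool) (hw : w ∈ Submonoid.closure X) :
    ∀ s, s = 0 ∨ s = 1 → run s w = 0 ∨ run s w = 1 := by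
  induction hw using Submonoid.closure_induction with
  | mem x hx =>
    simp only [X, Y, Set.mem_insert_iff, Set.mem_singleton_iff] at hx
    rcases hx with rfl | rfl | rfl | rfl | rfl | rfl | rfl | rfl <;> decide
  | one => exact fun s h => h
  | mul u v _ _ h1 h2 => intro s h; rw [run_mul]; exact h2 _ (h1 s h)

lemma inX (w : FreeMonoid Bool) : ∀ s, run s w = 0 ∨ run s w = 1 →
    (s = 0 → a * a * w ∈ Submonoid.closure X ∧ a * a * a * w ∈ Submonoid.closure X ∧
      b * a * a * w ∈ Submonoid.closure X ∧ b * a * a * a * w ∈ Submonoid.closure X) ∧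
    (s = 1 → w ∈ Submonoid.closure X) ∧ (s = 2 → b * w ∈ Submonoid.closure X) ∧
    (s = 3 → a * w ∈ Submonoid.closure X ∧ b * a * w ∈ Submonoid.closure X) := by
  have g : ∀ x, x ∈ X → x ∈ Submonoid.closure X := fun x hx => Submonoid.subset_closure hx
  have g1 := g (a * a) (by simp [X, Y])
  have g2 := g (a * a * a) (by simp [X, Y])
  have g3 := g (a * a * b) (by simp [X, Y])
  have g4 := g (a * a * a * b) (by simp [X, Y])
  have g5 := g (b * a * a) (by simp [X, Y])
  have g6 := g (b * a * a * a) (by simp [X, Y])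
  have g7 := g (b * a * a * b) (by simp [X, Y])
  have g8 := g (b * a * a * a * b) (by simp [X, Y])
  induction w using FreeMonoid.inductionOn' with
  | one =>
    intro s h
    refine ⟨fun _ => by simpa using ⟨g1, g2, g5, g6⟩, fun _ => one_mem _, ?_, ?_⟩ <;>
      rintro rfl <;> exact absurd h (by decide)
  | of_mul x w ih =>
    intro s h
    rw [run_mul] at h
    have ih' := ih _ h
    cases x
    · change _ ∧ (_ → a * w ∈ _) ∧ (_ → b * (a * w) ∈ _) ∧ (_ → a * (a * w) ∈ _ ∧ b * a * (a * w) ∈ _)
      refine ⟨?_, ?_, ?_, ?_⟩ <;> rintro rfl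
      · obtain ⟨h1, h2, h3, h4⟩ := ih'.1 rfl
        change a * a * (a * w) ∈ _ ∧ a * a * a * (a * w) ∈ _ ∧ b * a * a * (a * w) ∈ _ ∧
          b * a * a * a * (a * w) ∈ _
        refine ⟨?_, ?_, ?_, ?_⟩
        · simpa only [mul_assoc] using h2
        · simpa only [mul_assoc] using mul_mem g1 h1
        · simpa only [mul_assoc] using h4
        · simpa only [mul_assoc] using mul_mem g5 h1
      · exact (ih'.2.2.2 rfl).1
      · simpa only [mul_assoc] using (ih'.2.2.2 rfl).2
      · obtain ⟨h1, h2, h3, h4⟩ := ih'.1 rfl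
        exact ⟨by simpa only [mul_assoc] using h1, by simpa only [mul_assoc] using h3⟩
    · refine ⟨?_, ?_, ?_, ?_⟩ <;> rintro rfl
      · have h1 := ih'.2.1 rfl
        change a * a * (b * w) ∈ _ ∧ a * a * a * (b * w) ∈ _ ∧ b * a * a * (b * w) ∈ _ ∧
          b * a * a * a * (b * w) ∈ _
        refine ⟨?_, ?_, ?_, ?_⟩
        · simpa only [mul_assoc] using mul_mem g3 h1
        · simpa only [mul_assoc] using mul_mem g4 h1
        · simpa only [mul_assoc] using mul_mem g7 h1
        · simpa only [mul_assoc] using mul_mem g8 h1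
      · exact ih'.2.2.1 rfl
      · have e : run 2 (of true) = 4 := rfl
        rw [e, run_dead] at h; exact absurd h (by decide)
      · have e : run 3 (of true) = 4 := rfl
        rw [e, run_dead] at h; exact absurd h (by decide)

lemma toY (w : FreeMonoid Bool) (hw : w ∈ Submonoid.closure X) :
    w * (a * a * b) ∈ Submonoid.closure Y ∧ a * a * a * w * (a * a * b) ∈ Submonoid.closure Y := by
  have g : ∀ x, x ∈ Y → x ∈ Submonoid.closure Y := fun x hx => Submonoid.subset_closure hx
  have g1 := g (a * a) (by simp [Y])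
  have g3 := g (a * a * b) (by simp [Y])
  have g4 := g (a * a * a * b) (by simp [Y])
  induction hw using Submonoid.closure_induction_left with
  | one => exact ⟨by simpa using g3, by simpa only [mul_assoc, one_mul] using mul_mem g1 g4⟩
  | mul_left x hx w _ ih =>
    obtain ⟨h1, h2⟩ := ih
    constructor
    · rcases hx with rfl | hx
      · exact h2
      · simpa only [mul_assoc] using mul_mem (g x hx) h1
    · simp only [X, Y, Set.mem_insert_iff, Set.mem_singleton_iff] at hx
      rcases hx with rfl | rfl | rfl | rfl | rfl | rfl | rfl | rfl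
      · simpa only [mul_assoc] using mul_mem g1 (mul_mem g1 (mul_mem g1 h1))
      · simpa only [mul_assoc] using mul_mem g1 h2
      · simpa only [mul_assoc] using mul_mem g1 (mul_mem g4 h1)
      · simpa only [mul_assoc] using mul_mem g1 (mul_mem g1 (mul_mem g3 h1))
      · simpa only [mul_assoc] using mul_mem g4 (mul_mem g1 h1)
      · simpa only [mul_assoc] using mul_mem g4 h2
      · simpa only [mul_assoc] using mul_mem g4 (mul_mem g3 h1)
      · simpa only [mul_assoc] using mul_mem g4 (mul_mem g4 h1)

lemma cnt (w : FreeMonoid Bool) (hw : w ∈ Submonoid.closure X) :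
    w = 1 ∨ 2 ≤ w.toList.count false := by
  induction hw using Submonoid.closure_induction_left with
  | one => exact Or.inl rfl
  | mul_left x hx w _ _ =>
    right
    have : 2 ≤ x.toList.count false := by
      simp only [X, Y, Set.mem_insert_iff, Set.mem_singleton_iff] at hx
      rcases hx with rfl | rfl | rfl | rfl | rfl | rfl | rfl | rfl <;> decide
    rw [toList_mul, List.count_append]; omega

theorem result : ∃ X Y : Set (FreeMonoid Bool), X.Finite ∧ Y ⊂ X ∧
    (1 ∉ X ∧ ∀ x ∈ X, ∀ u ∈ Submonoid.closure X, ∀ v ∈ Submonoid.closure X,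
      u ≠ 1 → v ≠ 1 → x ≠ u * v) ∧
    (∀ N : Submonoid (FreeMonoid Bool), Submonoid.closure X ≤ N →
      (N : Set (FreeMonoid Bool)) ⊆ F (Submonoid.closure X) → N = Submonoid.closure X) ∧
    F (Submonoid.closure Y) = F (Submonoid.closure X) := by
  refine ⟨X, Y, by simp [X, Y], ?_, ⟨?_, ?_⟩, ?_, ?_⟩
  · refine Set.ssubset_insert ?_
    simp only [Y, Set.mem_insert_iff, Set.mem_singleton_iff, ← toList.injective.eq_iff]
    decide
  · simp only [X, Y, Set.mem_insert_iff, Set.mem_singleton_iff, ← toList.injective.eq_iff]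
    decide
  · intro x hx u hu v hv hu1 hv1 h
    have h1 := (cnt u hu).resolve_left hu1
    have h2 := (cnt v hv).resolve_left hv1
    have h3 : x.toList.count false ≤ 3 := by
      simp only [X, Y, Set.mem_insert_iff, Set.mem_singleton_iff] at hx
      rcases hx with rfl | rfl | rfl | rfl | rfl | rfl | rfl | rfl <;> decide
    rw [h, toList_mul, List.count_append] at h3; omega
  · intro N h1 h2
    refine le_antisymm (fun w hw => ?_) h1
    have g3 : a * a * b ∈ N := h1 (Submonoid.subset_closure (by simp [X, Y]))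
    have g5 : b * a * a ∈ N := h1 (Submonoid.subset_closure (by simp [X, Y]))
    obtain ⟨x, y, h⟩ := h2 (mul_mem (mul_mem g3 hw) g5)
    have h3 := run_X _ h 0 (Or.inl rfl)
    rw [run_mul _ _ y, run_mul _ x, run_mul _ _ (b * a * a), run_mul _ _ w] at h3
    have e1 : ∀ s, run s (a * a * b) = 1 ∨ run s (a * a * b) = 4 := by decide
    have e2 : ∀ s, (s = 0 ∨ s = 1) ∨ run s (b * a * a) = 4 := by decide
    rcases e1 (run 0 x) with e | e
    · rw [e] at h3
      rcases e2 (run 1 w) with e' | e'
      · exact (inX w 1 e').2.1 rfl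
      · rw [e', run_dead] at h3; exact absurd h3 (by decide)
    · rw [e, run_dead, run_dead, run_dead] at h3; exact absurd h3 (by decide)
  · apply Set.Subset.antisymm
    · rintro u ⟨x, y, h⟩
      exact ⟨x, y, Submonoid.closure_mono (Set.subset_insert _ _) h⟩
    · rintro u ⟨x, y, h⟩
      exact ⟨x, y * (a * a * b), by simpa only [mul_assoc, SetLike.mem_coe] using (toY _ h).1⟩

end Pool.Agent.Results.MP_51bcab_lc.Cex
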